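import Mathlib
import Pool.Agent.Y725.TR.Arr
import Pool.Agent.H327R3.TeraoMain

set_option autoImplicit false

/-! # The pair of arrangements of 27 planes -/

namespace Pool.Agent.Y725.TR

open MvPolynomial Pool.Agent.H327R3.Terao

variable {K : Type} [Field K]

theorem not_proj_of [CharP K 11] {n : ℕ} (P : Fin n → K × K)
    (hF : ∀ j, (P j).1 ^ 11 = (P j).1 ∧ (P j).2 ^ 11 = (P j).2)
    (w : K) (i0 : Fin n) (h0 : P i0 = (0, 0))
    (T : Finset K) (hT : T.card = 12)
    (hTd : ∀ t ∈ T, ∃ j, P j ≠ (0, 0) ∧ (P j).1 * t + (P j).2 * (1 + w * t) = 0) :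
    ¬ Module.Projective (MvPolynomial (Fin 3) K) (Pool.Agent.H327R3.Terao.Der (mat P)) := by
  intro hproj
  obtain ⟨t, ht⟩ := hproj
  set x : Pool.Agent.H327R3.Terao.Der (mat P) := ⟨th11, th11_mem P hF⟩ with hx
  apply FF_th11 (K := K) w
  have hsum := ht x
  rw [Finsupp.linearCombination_apply, Finsupp.sum] at hsum
  let FL : Pool.Agent.H327R3.Terao.Der (mat P) →+ Polynomial (Polynomial K) :=
    { toFun := fun v => FF w v.1
      map_zero' := by simp [FF]
      map_add' := fun u v => FF_add w u.1 v.1 }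
  have h1 : FF w th11 = ∑ i ∈ (t x).support, FL ((t x) i • (id i)) := by
    rw [← map_sum, hsum]
    rfl
  rw [h1]
  apply Finset.dvd_sum
  intro i _
  have h2 : FL ((t x) i • (id i)) = Phi w ((t x) i) * FF w i.1 := FF_smul w _ _
  rw [h2, pow_succ']
  apply mul_dvd_mul
  · apply Phi_coeff_zero
    exact functional_const P hF ((Finsupp.lapply i).comp t)
  · exact X12_dvd_FF P w i0 h0 T hT hTd _ i.2

theorem B_not_proj [CharP K 11] (i : K) (hi : i * i = -1) :
    ¬ Module.Projective (MvPolynomial (Fin 3) K) (Der (mat (PB i))) := by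
  classical
  have hinj : Function.Injective (fun m : Fin 12 => val i (tz m)) := by
    intro j k h
    apply injT
    rw [← val_eq_zero i hi, val_sub, sub_eq_zero]
    exact h
  refine not_proj_of (PB i) ?_ i 0 ?_ (Finset.univ.image fun m : Fin 12 => val i (tz m)) ?_ ?_
  · intro j
    obtain ⟨h1, h2⟩ := realB j
    simp only [PB, val, h1, h2, Nat.cast_zero, zero_mul, add_zero]
    exact ⟨nat_pow _, nat_pow _⟩
  · simp only [PB, zeroB, val_zero]
  · rw [Finset.card_image_of_injective _ hinj]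
    simp
  · intro t ht
    rw [Finset.mem_image] at ht
    obtain ⟨m, _, rfl⟩ := ht
    obtain ⟨j, hj1, hj2⟩ := checkT m
    refine ⟨j, ?_, ?_⟩
    · intro h
      have h1 : val i (pz j).2.1 = 0 := congrArg Prod.fst h
      have h2 : val i (pz j).2.2 = 0 := congrArg Prod.snd h
      rw [val_eq_zero i hi] at h1 h2
      rw [h1, h2] at hj1
      exact absurd hj1 (by decide)
    · rw [← val_eq_zero i hi, val_add, val_mul i hi, val_mul i hi, val_add, val_mul i hi] at hj2
      have e1 : val i (1, 0) = (1 : K) := by simp [val]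
      have e2 : val i (0, 1) = i := by simp [val]
      rw [e1, e2] at hj2
      exact hj2

/-! ## dependence -/

theorem dot_mat {n : ℕ} (P : Fin n → K × K) (i : Fin n) (v : Fin 3 → K) :
    mat P i ⬝ᵥ v = (P i).1 * v 0 + (P i).2 * v 1 + v 2 := by
  simp [mat, dotProduct, Fin.sum_univ_three]

theorem dep_mat {n : ℕ} (P Q : Fin n → K × K) (hP : Function.Injective P)
    (hQ : Function.Injective Q)
    (h : ∀ i j k, det3 (P i) (P j) (P k) = 0 ↔ det3 (Q i) (Q j) (Q k) = 0)
    (S : Set (Fin n)) (j : Fin n) : Dep (mat P) S j ↔ Dep (mat Q) S j := by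
  classical
  have key : ∀ (P : Fin n → K × K), Function.Injective P →
      (Dep (mat P) S j ↔ Cl P S.toFinset j) := by
    intro P hP
    rw [← cl_iff P hP]
    unfold Dep
    simp only [dot_mat, Set.mem_toFinset]
  rw [key P hP, key Q hQ, Cl_congr P Q h]

theorem simp_mat {n : ℕ} (P : Fin n → K × K) (hP : Function.Injective P) : Simp (mat P) :=
  ⟨fun i j hij c => mat_ne_smul P hP i j hij c, fun i => mat_ne_zero P i⟩

theorem ess_mat {n : ℕ} (P : Fin n → K × K) (a b c : Fin n) (ha : P a = (0, 0))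
    (hb : P b = (1, 0)) (hc : P c = (0, 1)) : Ess (mat P) := by
  unfold Ess
  rw [eq_top_iff]
  rintro u -
  have e : u = u 0 • (mat P b - mat P a) + u 1 • (mat P c - mat P a) + u 2 • mat P a := by
    funext j
    fin_cases j <;> simp [mat, ha, hb, hc]
  have h : ∀ i, mat P i ∈ Submodule.span K (Set.range (mat P)) :=
    fun i => Submodule.subset_span ⟨i, rfl⟩
  rw [e]
  exact Submodule.add_mem _ (Submodule.add_mem _ (Submodule.smul_mem _ _ (Submodule.sub_mem _ (h b) (h a)))
    (Submodule.smul_mem _ _ (Submodule.sub_mem _ (h c) (h a)))) (Submodule.smul_mem _ _ (h a))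

theorem col_span {n : ℕ} (P : Fin n → K × K) (hP : Function.Injective P) {i k m : Fin n}
    (hik : i ≠ k) (h : det3 (P i) (P k) (P m) = 0) (N : Submodule K (Fin 3 → K))
    (hi : mat P i ∈ N) (hk : mat P k ∈ N) : mat P m ∈ N := by
  have hPik : P i ≠ P k := fun h => hik (hP h)
  obtain ⟨t, ht1, ht2⟩ : ∃ t : K, (P m).1 = t * (P i).1 + (1 - t) * (P k).1 ∧
      (P m).2 = t * (P i).2 + (1 - t) * (P k).2 := by
    simp only [det3] at h
    by_cases ha : (P i).1 = (P k).1
    · have hb : (P i).2 ≠ (P k).2 := fun hb => hPik (Prod.ext ha hb)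
      have hb' : (P i).2 - (P k).2 ≠ 0 := sub_ne_zero.2 hb
      refine ⟨((P m).2 - (P k).2) / ((P i).2 - (P k).2), ?_, ?_⟩
      · field_simp
        linear_combination h
      · field_simp
        ring
    · have ha' : (P i).1 - (P k).1 ≠ 0 := sub_ne_zero.2 ha
      refine ⟨((P m).1 - (P k).1) / ((P i).1 - (P k).1), ?_, ?_⟩
      · field_simp
        ring
      · field_simp
        linear_combination (-1 : K) * h
  have e : mat P m = t • mat P i + (1 - t) • mat P k := by
    funext j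
    fin_cases j <;> simp [mat, ht1, ht2]
  rw [e]
  exact Submodule.add_mem _ (Submodule.smul_mem _ _ hi) (Submodule.smul_mem _ _ hk)

theorem irr_mat {n : ℕ} (P : Fin n → K × K) (hP : Function.Injective P) (o : Fin n)
    (hcon : ∀ j, j = o ∨ (∃ m, m ≠ o ∧ m ≠ j ∧ det3 (P o) (P j) (P m) = 0) ∨
      ∃ k m, k ≠ m ∧ j ≠ k ∧ j ≠ m ∧ k ≠ o ∧ det3 (P j) (P k) (P m) = 0 ∧
        ∃ m', m' ≠ o ∧ m' ≠ k ∧ det3 (P o) (P k) (P m') = 0) : Irr (mat P) := by
  intro I hI hIc hdis
  rw [Submodule.disjoint_def] at hdis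
  have hin : ∀ i ∈ I, mat P i ∈ Submodule.span K (mat P '' I) :=
    fun i hi => Submodule.subset_span ⟨i, hi, rfl⟩
  have hout : ∀ i ∉ I, mat P i ∈ Submodule.span K (mat P '' Iᶜ) :=
    fun i hi => Submodule.subset_span ⟨i, hi, rfl⟩
  have key : ∀ i k m, i ≠ k → det3 (P i) (P k) (P m) = 0 → (i ∈ I ↔ k ∈ I) → (k ∈ I ↔ m ∈ I) := by
    intro i k m hik hd hiff
    by_cases hk : k ∈ I
    · have hi := hiff.2 hk
      refine ⟨fun _ => ?_, fun _ => hk⟩
      by_contra hm
      exact mat_ne_zero P m (hdis _ (col_span P hP hik hd _ (hin i hi) (hin k hk)) (hout m hm))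
    · have hi : i ∉ I := fun h => hk (hiff.1 h)
      refine ⟨fun h => absurd h hk, fun hm => ?_⟩
      exact absurd (hdis _ (hin m hm) (col_span P hP hik hd _ (hout i hi) (hout k hk)))
        (mat_ne_zero P m)
  have rot : ∀ p q r : K × K, det3 p q r = 0 → det3 q r p = 0 := by
    intro p q r h
    simp only [det3] at h ⊢
    linear_combination h
  have swp : ∀ p q r : K × K, det3 p q r = 0 → det3 q p r = 0 := by
    intro p q r h
    simp only [det3] at h ⊢
    linear_combination -h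
  -- three distinct collinear points are on the same side
  have tri : ∀ i k m, i ≠ k → k ≠ m → i ≠ m → det3 (P i) (P k) (P m) = 0 → (i ∈ I ↔ k ∈ I) := by
    intro i k m hik hkm him hd
    by_cases h1 : (i ∈ I ↔ k ∈ I)
    · exact h1
    · by_cases h2 : (k ∈ I ↔ m ∈ I)
      · have := key k m i hkm (rot _ _ _ hd) h2
        exact absurd (by tauto) h1
      · have h3 : (i ∈ I ↔ m ∈ I) := by tauto
        have := key m i k him.symm (rot _ _ _ (rot _ _ _ hd)) h3.symm
        exact this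
  have all : ∀ j, (o ∈ I ↔ j ∈ I) := by
    intro j
    rcases hcon j with rfl | ⟨m, h1, h2, h3⟩ | ⟨k, m, h1, h2, h3, h4, h5, m', h6, h7, h8⟩
    · rfl
    · by_cases hj : j = o
      · rw [hj]
      · exact tri o j m (Ne.symm hj) h2.symm h1.symm h3
    · have e1 := tri o k m' h4.symm h7.symm h6.symm h8
      have e2 := tri j k m h2 h1 h3 h5
      exact e1.trans e2.symm
  obtain ⟨a, ha⟩ := hI
  obtain ⟨b, hb⟩ := hIc
  exact hb ((all b).1 ((all a).2 ha))

def conn (j : Fin 27) : Bool :=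
  decide (j = 0) || (List.finRange 27).any (fun m => decide (m ≠ 0) && decide (m ≠ j) &&
      isz (detc (pz 0).1 (pz j).1 (pz m).1)) ||
    (List.finRange 27).any (fun k => (List.finRange 27).any fun m =>
      decide (k ≠ m) && decide (j ≠ k) && decide (j ≠ m) && decide (k ≠ 0) &&
      isz (detc (pz j).1 (pz k).1 (pz m).1) &&
      (List.finRange 27).any fun m' => decide (m' ≠ 0) && decide (m' ≠ k) &&
        isz (detc (pz 0).1 (pz k).1 (pz m').1))

theorem conn_all : ∀ j : Fin 27, conn j = true := by decide +kernel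

theorem irr_PA [CharP K 11] (i : K) (hi : i * i = -1) : Irr (mat (PA i)) := by
  refine irr_mat (PA i) (PA_inj i hi) 0 fun j => ?_
  have hd : ∀ a b c : Fin 27, isz (detc (pz a).1 (pz b).1 (pz c).1) = true →
      det3 (PA i a) (PA i b) (PA i c) = 0 := by
    intro a b c h
    have e := val_detc i hi (pz a).1 (pz b).1 (pz c).1
    have : det3 (PA i a) (PA i b) (PA i c) = val i (detc (pz a).1 (pz b).1 (pz c).1) := e.symm
    rw [this, val_eq_zero i hi, h]
  have h := conn_all j
  simp only [conn, Bool.or_eq_true, Bool.and_eq_true, List.any_eq_true, decide_eq_true_eq,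
    List.mem_finRange, true_and] at h
  rcases h with (h | ⟨m, ⟨h1, h2⟩, h3⟩) | ⟨k, m, ⟨⟨⟨⟨h1, h2⟩, h3⟩, h4⟩, h5⟩, m', ⟨h6, h7⟩, h8⟩
  · exact Or.inl h
  · exact Or.inr (Or.inl ⟨m, h1, h2, hd _ _ _ h3⟩)
  · exact Or.inr (Or.inr ⟨k, m, h1, h2, h3, h4, hd _ _ _ h5, m', h6, h7, hd _ _ _ h8⟩)

theorem irr_PB [CharP K 11] (i : K) (hi : i * i = -1) : Irr (mat (PB i)) := by
  refine irr_mat (PB i) (PB_inj i hi) 0 fun j => ?_
  have hd : ∀ a b c : Fin 27, isz (detc (pz a).1 (pz b).1 (pz c).1) = true →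
      det3 (PB i a) (PB i b) (PB i c) = 0 := by
    intro a b c h
    rw [← det_same i hi]
    have e := val_detc i hi (pz a).1 (pz b).1 (pz c).1
    have : det3 (PA i a) (PA i b) (PA i c) = val i (detc (pz a).1 (pz b).1 (pz c).1) := e.symm
    rw [this, val_eq_zero i hi, h]
  have h := conn_all j
  simp only [conn, Bool.or_eq_true, Bool.and_eq_true, List.any_eq_true, decide_eq_true_eq,
    List.mem_finRange, true_and] at h
  rcases h with (h | ⟨m, ⟨h1, h2⟩, h3⟩) | ⟨k, m, ⟨⟨⟨⟨h1, h2⟩, h3⟩, h4⟩, h5⟩, m', ⟨h6, h7⟩, h8⟩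
  · exact Or.inl h
  · exact Or.inr (Or.inl ⟨m, h1, h2, hd _ _ _ h3⟩)
  · exact Or.inr (Or.inr ⟨k, m, h1, h2, h3, h4, hd _ _ _ h5, m', h6, h7, hd _ _ _ h8⟩)

theorem ess_PA (i : K) : Ess (mat (PA i)) := by
  refine ess_mat (PA i) 0 1 2 ?_ ?_ ?_
  · have : pz 0 = (((0,0), (0,0)), ((0,0), (0,0))) := by decide +kernel
    simp [PA, this, val]
  · have : pz 1 = (((1,0), (0,0)), ((1,0), (0,0))) := by decide +kernel
    simp [PA, this, val]
  · have : pz 2 = (((0,0), (1,0)), ((0,0), (1,0))) := by decide +kernel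
    simp [PA, this, val]

theorem ess_PB (i : K) : Ess (mat (PB i)) := by
  refine ess_mat (PB i) 0 1 2 ?_ ?_ ?_
  · have : pz 0 = (((0,0), (0,0)), ((0,0), (0,0))) := by decide +kernel
    simp [PB, this, val]
  · have : pz 1 = (((1,0), (0,0)), ((1,0), (0,0))) := by decide +kernel
    simp [PB, this, val]
  · have : pz 2 = (((0,0), (1,0)), ((0,0), (1,0))) := by decide +kernel
    simp [PB, this, val]

/-! ## the induction -/

/-- a pair of arrangements with the same dependences, the first one free, the second one not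
projective -/
structure Good {ι : Type} {l : ℕ} (A B : Matrix ι (Fin l) K) : Prop where
  dep : ∀ S j, Dep A S j ↔ Dep B S j
  simA : Simp A
  simB : Simp B
  essA : Ess A
  essB : Ess B
  irrA : Irr A
  irrB : Irr B
  free : Module.Free (MvPolynomial (Fin l) K) (Der A)
  nproj : ¬ Module.Projective (MvPolynomial (Fin l) K) (Der B)

theorem good_base [CharP K 11] (i : K) (hi : i * i = -1) : Good (mat (PA i)) (mat (PB i)) where
  dep := dep_mat _ _ (PA_inj i hi) (PB_inj i hi) (det_same i hi)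
  simA := simp_mat _ (PA_inj i hi)
  simB := simp_mat _ (PB_inj i hi)
  essA := ess_PA i
  essB := ess_PB i
  irrA := irr_PA i hi
  irrB := irr_PB i hi
  free := A_free i hi
  nproj := B_not_proj i hi

theorem good_ext {ι : Type} {l : ℕ} {A B : Matrix ι (Fin l) K} (h : Good A B) (i₀ : ι) {κ : Type}
    [Finite κ] [Nontrivial κ] {s : κ → K} (hs : Function.Injective s) :
    Good (extM A i₀ s) (extM B i₀ s) where
  dep := dep_ext h.dep i₀ hs
  simA := simp_ext h.simA i₀ hs
  simB := simp_ext h.simB i₀ hs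
  essA := ess_ext h.essA i₀ s
  essB := ess_ext h.essB i₀ s
  irrA := irr_ext h.simA h.irrA i₀ hs
  irrB := irr_ext h.simB h.irrB i₀ hs
  free := free_ext A (h.simA.2 i₀) hs h.free
  nproj := fun hp => h.nproj (proj_ext B (h.simB.2 i₀) hp)

/-- existence with `n` hyperplanes in dimension `l` -/
def Ex (K : Type) [Field K] (l n : ℕ) : Prop :=
  ∃ (ι : Type) (_ : Fintype ι) (_ : Nonempty ι) (A B : Matrix ι (Fin l) K),
    Fintype.card ι = n ∧ Good A B

theorem ex_base [CharP K 11] (h : ∃ i : K, i * i = -1) : Ex K 3 27 := by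
  obtain ⟨i, hi⟩ := h
  exact ⟨Fin 27, inferInstance, inferInstance, _, _, Fintype.card_fin 27, good_base i hi⟩

theorem ex_step {l n m : ℕ} (h : Ex K l n) (hm : 2 ≤ m) (hK : ∃ s : Fin m → K, Function.Injective s) :
    Ex K (l + 1) (n + m) := by
  obtain ⟨ι, _, ⟨i₀⟩, A, B, hn, hg⟩ := h
  obtain ⟨s, hs⟩ := hK
  have : Nontrivial (Fin m) := Fin.nontrivial_iff_two_le.2 hm
  refine ⟨ι ⊕ Fin m, inferInstance, ⟨Sum.inl i₀⟩, _, _, ?_, good_ext hg i₀ hs⟩
  rw [Fintype.card_sum, hn, Fintype.card_fin]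

theorem inj_two (K : Type) [Field K] : ∃ s : Fin 2 → K, Function.Injective s := by
  refine ⟨![0, 1], ?_⟩
  intro a b h
  fin_cases a <;> fin_cases b <;> simp at h ⊢

theorem ex_all [CharP K 11] (h : ∃ i : K, i * i = -1) {l n : ℕ} (hl : 3 ≤ l)
    (hn : n = 2 * l + 21 ∨ (Infinite K ∧ 4 ≤ l ∧ 2 * l + 21 ≤ n)) : Ex K l n := by
  have h1 : ∀ d : ℕ, Ex K (d + 3) (2 * (d + 3) + 21) := by
    intro d
    induction d with
    | zero => exact ex_base h
    | succ d ih =>
      have := ex_step ih le_rfl (inj_two K)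
      rwa [show d + 3 + 1 = d + 1 + 3 by ring, show 2 * (d + 3) + 21 + 2 = 2 * (d + 1 + 3) + 21 by ring]
        at this
  rcases hn with rfl | ⟨hK, hl4, hn⟩
  · obtain ⟨d, rfl⟩ : ∃ d, l = d + 3 := ⟨l - 3, by omega⟩
    exact h1 d
  · obtain ⟨d, rfl⟩ : ∃ d, l = d + 3 + 1 := ⟨l - 4, by omega⟩
    obtain ⟨m, rfl⟩ : ∃ m, n = 2 * (d + 3) + 21 + m := ⟨n - (2 * (d + 3) + 21), by omega⟩
    have hinj : ∃ s : Fin m → K, Function.Injective s :=
      ⟨fun j => Infinite.natEmbedding K j, fun a b hab =>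
        Fin.ext ((Infinite.natEmbedding K).injective hab)⟩
    exact ex_step (h1 d) (by omega) hinj

/-! ## the frozen shape -/

theorem flat_le {n l : ℕ} (A : Matrix (Fin n) (Fin l) K) (s t : Finset (Fin n)) :
    (⨅ i ∈ s, LinearMap.ker ((LinearMap.proj i : (Fin n → K) →ₗ[K] K).comp
        (Matrix.mulVecLin A))) ≤
      (⨅ i ∈ t, LinearMap.ker ((LinearMap.proj i : (Fin n → K) →ₗ[K] K).comp
        (Matrix.mulVecLin A))) ↔ ∀ j ∈ t, Dep A (s : Set (Fin n)) j := by
  have hmem : ∀ (u : Finset (Fin n)) (v : Fin l → K),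
      v ∈ (⨅ i ∈ u, LinearMap.ker ((LinearMap.proj i : (Fin n → K) →ₗ[K] K).comp
        (Matrix.mulVecLin A))) ↔ ∀ i ∈ u, A i ⬝ᵥ v = 0 := by
    intro u v
    simp [Submodule.mem_iInf, Matrix.mulVec]
  constructor
  · intro H j hj v hv
    exact (hmem t v).1 (H ((hmem s v).2 hv)) j hj
  · intro H v hv
    rw [hmem] at hv ⊢
    intro j hj
    exact H j hj v hv

theorem iso_of_dep {n l : ℕ} {A B : Matrix (Fin n) (Fin l) K} (h : ∀ S j, Dep A S j ↔ Dep B S j) :
    Nonempty
        (↥(Set.range (fun s : Finset (Fin n) =>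
            ⨅ i ∈ s, LinearMap.ker ((LinearMap.proj i : (Fin n → K) →ₗ[K] K).comp
              (Matrix.mulVecLin A))))
          ≃o
         ↥(Set.range (fun s : Finset (Fin n) =>
            ⨅ i ∈ s, LinearMap.ker ((LinearMap.proj i : (Fin n → K) →ₗ[K] K).comp
              (Matrix.mulVecLin B))))) := by
  apply range_iso
  intro s t
  rw [flat_le, flat_le]
  simp only [h]

/-! ## reindexing -/

theorem Der_reindex {ι ι' : Type} {l : ℕ} (A : Matrix ι (Fin l) K) (e : ι' ≃ ι) :
    Der (A.submatrix e id) = Der A := by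
  rw [Der_eq, Der_eq]
  ext v
  rw [mem_LogD, mem_LogD]
  exact e.forall_congr_left (p := fun i => ff (A.submatrix e id) i ∣ ∑ j, cc (A.submatrix e id) i j * v j)
    |>.trans (by simp [ff, cc])

theorem good_reindex {ι ι' : Type} {l : ℕ} {A B : Matrix ι (Fin l) K} (h : Good A B) (e : ι' ≃ ι) :
    Good (A.submatrix e id) (B.submatrix e id) := by
  have hrow : ∀ (M : Matrix ι (Fin l) K) (i : ι'), M.submatrix e id i = M (e i) := fun M i => rfl
  have hdep : ∀ (M : Matrix ι (Fin l) K) (S : Set ι') (j : ι'),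
      Dep (M.submatrix e id) S j ↔ Dep M (e '' S) (e j) := by
    intro M S j
    unfold Dep
    simp only [hrow, Set.mem_image, forall_exists_index, and_imp, forall_apply_eq_imp_iff₂]
  have hsim : ∀ M : Matrix ι (Fin l) K, Simp M → Simp (M.submatrix e id) := by
    intro M hM
    exact ⟨fun i j hij c => hM.1 _ _ (fun h => hij (e.injective h)) c, fun i => hM.2 _⟩
  have himg : ∀ (M : Matrix ι (Fin l) K) (I : Set ι'), M.submatrix e id '' I = M '' (e '' I) := by
    intro M I
    rw [Set.image_image]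
    rfl
  have hess : ∀ M : Matrix ι (Fin l) K, Ess M → Ess (M.submatrix e id) := by
    intro M hM
    unfold Ess at hM ⊢
    rw [← Set.image_univ, himg, Set.image_univ, e.range_eq_univ, Set.image_univ, hM]
  have hirr : ∀ M : Matrix ι (Fin l) K, Irr M → Irr (M.submatrix e id) := by
    intro M hM I hI hIc
    rw [himg, himg, Set.image_compl_eq e.bijective]
    refine hM (e '' I) (hI.image _) ?_
    rw [← Set.image_compl_eq e.bijective]
    exact hIc.image _
  refine ⟨fun S j => ?_, hsim A h.simA, hsim B h.simB, hess A h.essA, hess B h.essB,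
    hirr A h.irrA, hirr B h.irrB, ?_, ?_⟩
  · rw [hdep, hdep, h.dep]
  · rw [Der_reindex]
    exact h.free
  · rw [Der_reindex]
    exact h.nproj

end Pool.Agent.Y725.TR
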